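import Mathlib

set_option autoImplicit false

namespace Pool.Agent.Results.MP_8b22ef_co.FractionalLogBound

open Finset

section Greedy

variable {V : Type} [DecidableEq V]

/-- Greedy step: if every nonempty subset of `U` has a vertex which weighs at least as much as all its
neighbours in that subset together, then `U` has an independent subset of at least half the weight. -/
theorem exists_half {G : SimpleGraph V} [DecidableRel G.Adj] (w : V → ℝ) :
    ∀ (n : ℕ) (U : Finset V), U.card ≤ n →
      (∀ U' : Finset V, U' ⊆ U → U'.Nonempty →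
        ∃ v ∈ U', ∑ u ∈ U' with G.Adj v u, w u ≤ w v) →
      ∃ J : Finset V, J ⊆ U ∧ G.IsIndepSet (J : Set V) ∧ ∑ v ∈ U, w v ≤ 2 * ∑ v ∈ J, w v := by
  intro n
  induction n with
  | zero =>
    intro U hU _
    have : U = ∅ := by
      apply Finset.card_eq_zero.mp
      omega
    subst this
    exact ⟨∅, by simp, by simp [SimpleGraph.IsIndepSet], by simp⟩
  | succ n ih =>
    intro U hU hyp
    by_cases hne : U.Nonempty
    · obtain ⟨v, hv, hvw⟩ := hyp U (Finset.Subset.refl _) hne
      set U' : Finset V := (U.erase v).filter (fun u => ¬ G.Adj v u) with hU'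
      have hU'U : U' ⊆ U := by
        intro x hx
        rw [hU', Finset.mem_filter, Finset.mem_erase] at hx
        exact hx.1.2
      have hcard : U'.card ≤ n := by
        have h1 : U'.card ≤ (U.erase v).card := Finset.card_filter_le _ _
        have h2 : (U.erase v).card = U.card - 1 := Finset.card_erase_of_mem hv
        omega
      obtain ⟨J, hJU, hJi, hJw⟩ := ih U' hcard
        (fun U'' h1 h2 => hyp U'' (h1.trans hU'U) h2)
      have hvJ : v ∉ J := by
        intro h
        have := hJU h
        rw [hU', Finset.mem_filter, Finset.mem_erase] at this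
        exact this.1.1 rfl
      refine ⟨insert v J, ?_, ?_, ?_⟩
      · intro x hx
        rcases Finset.mem_insert.mp hx with h | h
        · rw [h]; exact hv
        · exact hU'U (hJU h)
      · intro a ha b hb hab
        have ha' : a = v ∨ a ∈ J := by simpa using ha
        have hb' : b = v ∨ b ∈ J := by simpa using hb
        rcases ha' with ha1 | ha1 <;> rcases hb' with hb1 | hb1
        · exact absurd (ha1.trans hb1.symm) hab
        · have := hJU hb1
          rw [hU', Finset.mem_filter] at this
          rw [ha1]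
          exact this.2
        · have := hJU ha1
          rw [hU', Finset.mem_filter] at this
          rw [hb1]
          intro h
          exact this.2 h.symm
        · exact hJi ha1 hb1 hab
      · have hsplit : ∑ x ∈ U, w x = w v + (∑ x ∈ (U.erase v) with G.Adj v x, w x + ∑ x ∈ U', w x) := by
          rw [← Finset.add_sum_erase U w hv, hU']
          rw [Finset.sum_filter_add_sum_filter_not]
        have hN : ∑ x ∈ (U.erase v) with G.Adj v x, w x = ∑ x ∈ U with G.Adj v x, w x := by
          apply Finset.sum_congr _ (fun _ _ => rfl)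
          ext x
          simp only [Finset.mem_filter, Finset.mem_erase]
          constructor
          · rintro ⟨⟨_, h2⟩, h3⟩; exact ⟨h2, h3⟩
          · rintro ⟨h2, h3⟩; exact ⟨⟨fun h => G.loopless.irrefl v (h ▸ h3), h2⟩, h3⟩
        rw [Finset.sum_insert hvJ, hsplit, hN]
        linarith
    · rw [Finset.not_nonempty_iff_eq_empty] at hne
      subst hne
      exact ⟨∅, by simp, by simp [SimpleGraph.IsIndepSet], by simp⟩

end Greedy

section Weights

variable {V : Type} [Fintype V] [DecidableEq V]

/-- The weighted statement: every nonnegative weight has an independent set carrying at least the fraction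
`1 / (4 ρ (⌈log₂ d⌉ + 1))` of it. -/
theorem exists_weighted {G : SimpleGraph V} [DecidableRel G.Adj] {ρ : ℝ} (hρ : 0 ≤ ρ) {d : ℕ}
    (hd : ∀ v, G.degree v ≤ d)
    (hyp : ∀ S : Finset V, ∃ I : Finset V,
      I ⊆ S ∧ G.IsIndepSet (I : Set V) ∧ (S.card : ℝ) ≤ ρ * (I.card : ℝ))
    (w : V → ℝ) (hw : ∀ v, 0 ≤ w v) :
    ∃ J : Finset V, G.IsIndepSet (J : Set V) ∧
      ∑ v, w v ≤ 4 * ρ * ((Nat.clog 2 d : ℝ) + 1) * ∑ v ∈ J, w v := by
  classical
  set T : ℕ := Nat.clog 2 d + 1 with hT
  have hTpos : 0 < T := by omega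
  have hTz : (0 : ℤ) < (T : ℤ) := by exact_mod_cast hTpos
  have hd2 : (d : ℝ) ≤ (2 : ℝ) ^ ((T : ℤ) - 1) := by
    have h1 : d ≤ 2 ^ (Nat.clog 2 d) := Nat.le_pow_clog (by norm_num) d
    have h2 : ((T : ℤ) - 1) = ((Nat.clog 2 d : ℕ) : ℤ) := by
      rw [hT]; push_cast; ring
    rw [h2, zpow_natCast]
    exact_mod_cast h1
  -- classes
  set P : Finset V := Finset.univ.filter (fun v => 0 < w v) with hP
  set c : V → ℤ := fun v => Int.log 2 (w v) with hc
  have hlow : ∀ v ∈ P, (2 : ℝ) ^ (c v) ≤ w v := by
    intro v hv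
    rw [hP, Finset.mem_filter] at hv
    have := Int.zpow_log_le_self (b := 2) (by norm_num) hv.2
    exact_mod_cast this
  have hupp : ∀ v ∈ P, w v < (2 : ℝ) ^ (c v + 1) := by
    intro v hv
    have := Int.lt_zpow_succ_log_self (b := 2) (by norm_num) (w v)
    exact_mod_cast this
  -- residue
  obtain ⟨r, hr, hrW⟩ : ∃ r ∈ Finset.range T, (∑ v ∈ P, w v) / T ≤
      ∑ v ∈ P with (c v % (T : ℤ)).toNat = r, w v := by
    have hmaps : ∀ v ∈ P, (c v % (T : ℤ)).toNat ∈ Finset.range T := by
      intro v _
      rw [Finset.mem_range]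
      have h1 := Int.emod_nonneg (c v) (ne_of_gt hTz)
      have h2 := Int.emod_lt_of_pos (c v) hTz
      omega
    have hsum := Finset.sum_fiberwise_of_maps_to hmaps w
    have hne : (Finset.range T).Nonempty := ⟨0, Finset.mem_range.mpr hTpos⟩
    have hTr : (0 : ℝ) < (T : ℝ) := by exact_mod_cast hTpos
    apply Finset.exists_le_of_sum_le hne
    rw [hsum, Finset.sum_const, Finset.card_range, nsmul_eq_mul]
    rw [mul_div_cancel₀ _ (ne_of_gt hTr)]
  -- the class sets and their independent subsets
  choose I hIS hIi hIc using hyp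
  set cls : ℤ → Finset V := fun i => P.filter (fun v => c v = i) with hcls
  set U : Finset V := P.filter (fun v => (c v % (T : ℤ)).toNat = r ∧ v ∈ I (cls (c v))) with hU
  have hmemcls : ∀ i, ∀ v ∈ I (cls i), v ∈ P ∧ c v = i := by
    intro i v hv
    have := hIS _ hv
    rw [hcls] at this
    simpa using this
  -- weight of U
  have hUw : ∑ v ∈ P with (c v % (T : ℤ)).toNat = r, w v ≤ 2 * ρ * ∑ v ∈ U, w v := by
    set Z : Finset ℤ := P.image c with hZ
    have h1 : ∑ v ∈ P with (c v % (T : ℤ)).toNat = r, w v =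
        ∑ i ∈ Z, ∑ v ∈ (P.filter (fun v => (c v % (T : ℤ)).toNat = r)) with c v = i, w v := by
      rw [Finset.sum_fiberwise_of_maps_to]
      intro v hv
      rw [hZ]
      exact Finset.mem_image_of_mem _ (Finset.mem_filter.mp hv).1
    have h2 : ∑ v ∈ U, w v = ∑ i ∈ Z, ∑ v ∈ U with c v = i, w v := by
      rw [Finset.sum_fiberwise_of_maps_to]
      intro v hv
      rw [hZ]
      exact Finset.mem_image_of_mem _ (Finset.mem_filter.mp hv).1
    rw [h1, h2, Finset.mul_sum]
    apply Finset.sum_le_sum
    intro i _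
    by_cases hi : (i % (T : ℤ)).toNat = r
    · -- both sides full
      have hA : (P.filter (fun v => (c v % (T : ℤ)).toNat = r)).filter (fun v => c v = i) = cls i := by
        ext v
        simp only [hcls, Finset.mem_filter]
        constructor
        · rintro ⟨⟨h1, _⟩, h3⟩; exact ⟨h1, h3⟩
        · rintro ⟨h1, h3⟩; exact ⟨⟨h1, by rw [h3]; exact hi⟩, h3⟩
      have hB : U.filter (fun v => c v = i) = I (cls i) := by
        ext v
        simp only [hU, Finset.mem_filter]
        constructor
        · rintro ⟨⟨_, _, h3⟩, h4⟩; rw [h4] at h3; exact h3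
        · intro h
          obtain ⟨hp, hci⟩ := hmemcls i v h
          exact ⟨⟨hp, by rw [hci]; exact hi, by rw [hci]; exact h⟩, hci⟩
      rw [hA, hB]
      have h3 : ∑ v ∈ cls i, w v ≤ ((cls i).card : ℝ) * (2 : ℝ) ^ (i + 1) := by
        rw [← nsmul_eq_mul]
        apply Finset.sum_le_card_nsmul
        intro v hv
        have hv' : v ∈ P ∧ c v = i := by simpa [hcls] using hv
        have := hupp v hv'.1
        rw [hv'.2] at this
        exact this.le
      have h4 : ((I (cls i)).card : ℝ) * (2 : ℝ) ^ i ≤ ∑ v ∈ I (cls i), w v := by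
        rw [← nsmul_eq_mul]
        apply Finset.card_nsmul_le_sum
        intro v hv
        obtain ⟨hp, hci⟩ := hmemcls i v hv
        have := hlow v hp
        rw [hci] at this
        exact this
      have h5 := hIc (cls i)
      have h6 : (0 : ℝ) < (2 : ℝ) ^ i := by positivity
      have h7 : (2 : ℝ) ^ (i + 1) = 2 * (2 : ℝ) ^ i := by
        rw [zpow_add₀ (by norm_num), zpow_one]; ring
      calc ∑ v ∈ cls i, w v ≤ ((cls i).card : ℝ) * (2 : ℝ) ^ (i + 1) := h3
        _ ≤ (ρ * ((I (cls i)).card : ℝ)) * (2 : ℝ) ^ (i + 1) := by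
            apply mul_le_mul_of_nonneg_right h5 (by positivity)
        _ = 2 * ρ * (((I (cls i)).card : ℝ) * (2 : ℝ) ^ i) := by rw [h7]; ring
        _ ≤ 2 * ρ * ∑ v ∈ I (cls i), w v := by
            apply mul_le_mul_of_nonneg_left h4 (by positivity)
    · have hA : (P.filter (fun v => (c v % (T : ℤ)).toNat = r)).filter (fun v => c v = i) = ∅ := by
        apply Finset.filter_eq_empty_iff.mpr
        intro v hv hvi
        rw [Finset.mem_filter] at hv
        rw [hvi] at hv
        exact hi hv.2
      rw [hA, Finset.sum_empty]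
      have : 0 ≤ ∑ v ∈ U with c v = i, w v := Finset.sum_nonneg (fun v _ => hw v)
      positivity
  -- greedy selection
  obtain ⟨J, hJU, hJi, hJw⟩ := exists_half (G := G) w U.card U le_rfl (by
    intro U' hU' hne
    obtain ⟨v, hv, hmax⟩ := Finset.exists_max_image U' c hne
    refine ⟨v, hv, ?_⟩
    have hvU := hU' hv
    rw [hU, Finset.mem_filter] at hvU
    obtain ⟨hvP, hvr, hvI⟩ := hvU
    have hsmall : ∀ u ∈ U'.filter (fun u => G.Adj v u), w u ≤ (2 : ℝ) ^ (c v + 1 - (T : ℤ)) := by
      intro u hu
      rw [Finset.mem_filter] at hu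
      obtain ⟨huU', huv⟩ := hu
      have huU := hU' huU'
      rw [hU, Finset.mem_filter] at huU
      obtain ⟨huP, hur, huI⟩ := huU
      have hle := hmax u huU'
      have hne' : c u ≠ c v := by
        intro heq
        rw [heq] at huI
        have hne2 : v ≠ u := G.ne_of_adj huv
        exact hIi _ (by exact_mod_cast hvI) (by exact_mod_cast huI) hne2 huv
      -- congruence
      have hmod : c u % (T : ℤ) = c v % (T : ℤ) := by
        have h1 := Int.emod_nonneg (c v) (ne_of_gt hTz)
        have h2 := Int.emod_nonneg (c u) (ne_of_gt hTz)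
        omega
      have hdvd : (T : ℤ) ∣ (c v - c u) := by
        exact Int.ModEq.dvd hmod
      have hge : (T : ℤ) ≤ c v - c u := Int.le_of_dvd (by omega) hdvd
      have h3 := hupp u huP
      have h4 : (2 : ℝ) ^ (c u + 1) ≤ (2 : ℝ) ^ (c v + 1 - (T : ℤ)) := by
        apply zpow_le_zpow_right₀ (by norm_num)
        omega
      exact h3.le.trans h4
    have hcardle : (U'.filter (fun u => G.Adj v u)).card ≤ d := by
      have h1 : U'.filter (fun u => G.Adj v u) ⊆ G.neighborFinset v := by
        intro u hu
        rw [Finset.mem_filter] at hu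
        rw [SimpleGraph.mem_neighborFinset]
        exact hu.2
      exact (Finset.card_le_card h1).trans (by rw [SimpleGraph.card_neighborFinset_eq_degree]; exact hd v)
    calc ∑ u ∈ U' with G.Adj v u, w u
        ≤ (U'.filter (fun u => G.Adj v u)).card • (2 : ℝ) ^ (c v + 1 - (T : ℤ)) :=
          Finset.sum_le_card_nsmul _ _ _ hsmall
      _ = ((U'.filter (fun u => G.Adj v u)).card : ℝ) * (2 : ℝ) ^ (c v + 1 - (T : ℤ)) := by
          rw [nsmul_eq_mul]
      _ ≤ (d : ℝ) * (2 : ℝ) ^ (c v + 1 - (T : ℤ)) := by
          apply mul_le_mul_of_nonneg_right (by exact_mod_cast hcardle) (by positivity)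
      _ ≤ (2 : ℝ) ^ ((T : ℤ) - 1) * (2 : ℝ) ^ (c v + 1 - (T : ℤ)) := by
          apply mul_le_mul_of_nonneg_right hd2 (by positivity)
      _ = (2 : ℝ) ^ (c v) := by
          rw [← zpow_add₀ (by norm_num)]
          congr 1
          ring
      _ ≤ w v := hlow v hvP)
  refine ⟨J, hJi, ?_⟩
  have hTr : (0 : ℝ) < (T : ℝ) := by exact_mod_cast hTpos
  have hWP : ∑ v, w v = ∑ v ∈ P, w v := by
    rw [hP, Finset.sum_filter]
    apply Finset.sum_congr rfl
    intro v _
    by_cases h : 0 < w v
    · rw [if_pos h]
    · rw [if_neg h]; exact le_antisymm (not_lt.mp h) (hw v)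
  have hTeq : ((Nat.clog 2 d : ℝ) + 1) = (T : ℝ) := by rw [hT]; push_cast; ring
  rw [hWP, hTeq]
  have h1 : ∑ v ∈ P, w v ≤ T * ∑ v ∈ P with (c v % (T : ℤ)).toNat = r, w v := by
    rw [div_le_iff₀ hTr] at hrW
    linarith
  have hJ0 : 0 ≤ ∑ v ∈ J, w v := Finset.sum_nonneg (fun v _ => hw v)
  calc ∑ v ∈ P, w v ≤ T * ∑ v ∈ P with (c v % (T : ℤ)).toNat = r, w v := h1
    _ ≤ T * (2 * ρ * ∑ v ∈ U, w v) := mul_le_mul_of_nonneg_left hUw hTr.le
    _ ≤ T * (2 * ρ * (2 * ∑ v ∈ J, w v)) := by
        apply mul_le_mul_of_nonneg_left _ hTr.le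
        apply mul_le_mul_of_nonneg_left hJw (by positivity)
    _ = 4 * ρ * T * ∑ v ∈ J, w v := by ring

end Weights

section Duality

variable {V : Type} [Fintype V] [DecidableEq V]

/-- Duality: if every nonnegative weight has an independent set carrying a `1/K` fraction of it, there is a
fractional colouring of total weight `K`. -/
theorem exists_fractional {G : SimpleGraph V} {K : ℝ} (hK : 0 < K)
    (h : ∀ w : V → ℝ, (∀ v, 0 ≤ w v) → ∃ J : Finset V, G.IsIndepSet (J : Set V) ∧
      ∑ v, w v ≤ K * ∑ v ∈ J, w v) :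
    ∃ y : Finset V → ℝ, (∀ I, 0 ≤ y I) ∧ (∀ I : Finset V, ¬ G.IsIndepSet (I : Set V) → y I = 0) ∧
      (∀ v, 1 ≤ ∑ I : Finset V with v ∈ I, y I) ∧ ∑ I, y I = K := by
  classical
  let ι := {J : Finset V // G.IsIndepSet (J : Set V)}
  let L : (ι → ℝ) →ₗ[ℝ] (V → ℝ) :=
    { toFun := fun μ v => ∑ J : ι, μ J * (if v ∈ J.1 then 1 else 0)
      map_add' := by
        intro a b
        ext v
        rw [Pi.add_apply, ← Finset.sum_add_distrib]
        apply Finset.sum_congr rfl
        intro J _
        rw [Pi.add_apply, add_mul]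
      map_smul' := by
        intro a b
        ext v
        simp [Finset.mul_sum] }
  have hL : ∀ μ v, L μ v = ∑ J : ι, μ J * (if v ∈ J.1 then 1 else 0) := fun _ _ => rfl
  set s : Set (V → ℝ) := L '' (stdSimplex ℝ ι) with hs
  set t : Set (V → ℝ) := {x | ∀ v, 1 / K ≤ x v} with ht
  have hsc : IsCompact s := (isCompact_stdSimplex ℝ ι).image L.continuous_of_finiteDimensional
  have hsconv : Convex ℝ s := (convex_stdSimplex ℝ ι).linear_image L
  have htclosed : IsClosed t := by
    have : t = ⋂ v, {x : V → ℝ | 1 / K ≤ x v} := by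
      ext x; simp [ht]
    rw [this]
    exact isClosed_iInter (fun v => isClosed_le continuous_const (continuous_apply v))
  have htconv : Convex ℝ t := by
    intro x hx y hy a b ha hb hab v
    have h1 := hx v
    have h2 := hy v
    have : (a • x + b • y) v = a * x v + b * y v := by simp
    rw [this]
    calc 1 / K = a * (1 / K) + b * (1 / K) := by rw [← add_mul, hab, one_mul]
      _ ≤ a * x v + b * y v := by gcongr
  by_cases hdisj : Disjoint s t
  · exfalso
    obtain ⟨f, u, u', hfs, huu, hft⟩ :=
      geometric_hahn_banach_compact_closed hsconv hsc htconv htclosed hdisj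
    set w : V → ℝ := fun v => f (Pi.single v 1) with hw
    have hfx : ∀ x : V → ℝ, f x = ∑ v, x v * w v := by
      intro x
      conv_lhs => rw [← Finset.univ_sum_single x]
      rw [map_sum]
      apply Finset.sum_congr rfl
      intro v _
      have : Pi.single v (x v) = x v • (Pi.single v 1 : V → ℝ) := by
        ext z
        by_cases hz : z = v
        · subst hz; simp
        · simp [Pi.single_eq_of_ne hz]
      rw [this, map_smul, smul_eq_mul]
    have hwnn : ∀ v, 0 ≤ w v := by
      intro v
      by_contra hneg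
      rw [not_le] at hneg
      -- base point
      set x0 : V → ℝ := fun _ => 1 / K with hx0
      have hx0t : x0 ∈ t := fun v => le_rfl
      set m : ℝ := (f x0 - u') / (- w v) with hm
      have hm0 : 0 < m := by
        rw [hm]
        apply div_pos
        · have := hft x0 hx0t
          linarith
        · linarith
      have hx1 : x0 + m • (Pi.single v 1 : V → ℝ) ∈ t := by
        intro z
        have : (x0 + m • (Pi.single v 1 : V → ℝ)) z = 1 / K + m * (Pi.single v 1 : V → ℝ) z := by
          simp [hx0]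
        rw [this]
        have h2 : 0 ≤ (Pi.single v 1 : V → ℝ) z := by
          by_cases hz : z = v
          · subst hz; simp
          · simp [Pi.single_eq_of_ne hz]
        have := mul_nonneg hm0.le h2
        linarith
      have h3 := hft _ hx1
      rw [map_add, map_smul, smul_eq_mul] at h3
      have h4 : m * w v = -(f x0 - u') := by
        rw [hm]
        have : w v ≠ 0 := ne_of_lt hneg
        field_simp
      have h5 : f (Pi.single v 1) = w v := rfl
      rw [h5, h4] at h3
      linarith
    obtain ⟨J, hJi, hJw⟩ := h w hwnn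
    have h1 : L (Pi.single (⟨J, hJi⟩ : ι) 1) ∈ s := by
      rw [hs]
      exact ⟨_, single_mem_stdSimplex ℝ _, rfl⟩
    have h2 := hfs _ h1
    have h3 : (fun _ : V => 1 / K) ∈ t := fun v => le_rfl
    have h4 := hft _ h3
    rw [hfx] at h2 h4
    have h5 : ∑ v, (L (Pi.single (⟨J, hJi⟩ : ι) 1)) v * w v = ∑ v ∈ J, w v := by
      have : ∀ v, (L (Pi.single (⟨J, hJi⟩ : ι) 1)) v = if v ∈ J then 1 else 0 := by
        intro v
        rw [hL, Finset.sum_eq_single (⟨J, hJi⟩ : ι)]
        · simp
        · intro b _ hb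
          rw [Pi.single_eq_of_ne hb, zero_mul]
        · intro hh
          exact absurd (Finset.mem_univ _) hh
      simp only [this, ite_mul, one_mul, zero_mul, Finset.sum_ite_mem, Finset.univ_inter]
    have h6 : ∑ v, (1 / K) * w v = (1 / K) * ∑ v, w v := by rw [Finset.mul_sum]
    rw [h5] at h2
    rw [h6] at h4
    have h7 : (1 / K) * ∑ v, w v ≤ ∑ v ∈ J, w v := by
      rw [one_div, inv_mul_le_iff₀ hK]
      exact hJw
    linarith
  · rw [Set.not_disjoint_iff] at hdisj
    obtain ⟨x, hxs, hxt⟩ := hdisj
    obtain ⟨μ, hμ, rfl⟩ := hxs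
    obtain ⟨hμ0, hμ1⟩ := hμ
    have hsub : ∀ g : Finset V → ℝ, (∀ I : Finset V, ¬ G.IsIndepSet (I : Set V) → g I = 0) →
        ∑ I : Finset V, g I = ∑ J : ι, g J.1 := by
      intro g hg
      rw [← Finset.sum_subset (Finset.subset_univ
        (Finset.univ.filter (fun I : Finset V => G.IsIndepSet (I : Set V))))]
      · exact Finset.sum_subtype _ (by simp) g
      · intro I _ hI
        apply hg
        simpa using hI
    refine ⟨fun I => if hI : G.IsIndepSet (I : Set V) then K * μ ⟨I, hI⟩ else 0, ?_, ?_, ?_, ?_⟩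
    · intro I
      by_cases hI : G.IsIndepSet (I : Set V)
      · simp only [hI, dif_pos]
        exact mul_nonneg hK.le (hμ0 _)
      · simp [hI]
    · intro I hI
      simp [hI]
    · intro v
      have h1 := hxt v
      rw [hL] at h1
      have h2 : ∑ I : Finset V with v ∈ I, (if hI : G.IsIndepSet (I : Set V) then K * μ ⟨I, hI⟩ else 0) =
          K * ∑ J : ι, μ J * (if v ∈ J.1 then 1 else 0) := by
        rw [Finset.sum_filter, Finset.mul_sum, hsub (fun I => if v ∈ I then
          (if hI : G.IsIndepSet (I : Set V) then K * μ ⟨I, hI⟩ else 0) else 0)]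
        · apply Finset.sum_congr rfl
          intro J _
          have hJ := J.2
          by_cases hv : v ∈ J.1
          · simp only [hv, if_true, hJ, dif_pos, mul_one]
            rfl
          · simp only [hv, if_false, mul_zero]
        · intro I hI
          simp [hI]
      rw [h2]
      rw [div_le_iff₀ hK] at h1
      linarith
    · rw [hsub (fun I => if hI : G.IsIndepSet (I : Set V) then K * μ ⟨I, hI⟩ else 0)]
      · have : ∀ J : ι, (if hI : G.IsIndepSet (J.1 : Set V) then K * μ ⟨J.1, hI⟩ else 0) = K * μ J := by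
          intro J
          simp only [J.2, dif_pos]
          rfl
        rw [Finset.sum_congr rfl (fun J _ => this J), ← Finset.mul_sum, hμ1, mul_one]
      · intro I hI
        simp [hI]

end Duality

/-- **Fractional form of Q1, with a logarithmic bound.**  If every vertex set `S` of the finite graph `G`
contains an independent set of size at least `|S| / ρ`, then the fractional chromatic number of `G` is at most
`4 ρ (⌈log₂ Δ⌉ + 1)`: there are nonnegative weights `y` on the vertex sets, zero on the sets that are not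
independent, of total at most `4 ρ (⌈log₂ Δ⌉ + 1)`, such that the sets containing any given vertex have total
weight at least `1`.  (`ρ = 3` is the hypothesis of Q1.) -/
theorem result (V : Type) [Fintype V] [DecidableEq V] (G : SimpleGraph V) [DecidableRel G.Adj]
    (ρ : ℝ) (hρ : 0 ≤ ρ)
    (hyp : ∀ S : Finset V, ∃ I : Finset V,
      I ⊆ S ∧ G.IsIndepSet (I : Set V) ∧ (S.card : ℝ) ≤ ρ * (I.card : ℝ)) :
    ∃ y : Finset V → ℝ, (∀ I, 0 ≤ y I) ∧
      (∀ I : Finset V, ¬ G.IsIndepSet (I : Set V) → y I = 0) ∧
      (∀ v : V, 1 ≤ ∑ I : Finset V with v ∈ I, y I) ∧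
      ∑ I : Finset V, y I ≤ 4 * ρ * ((Nat.clog 2 G.maxDegree : ℝ) + 1) := by
  classical
  by_cases hV : IsEmpty V
  · refine ⟨fun _ => 0, fun _ => le_rfl, fun _ _ => rfl, fun v => (hV.false v).elim, ?_⟩
    rw [Finset.sum_const_zero]
    positivity
  · rw [not_isEmpty_iff] at hV
    obtain ⟨v0⟩ := hV
    have hρpos : 0 < ρ := by
      obtain ⟨I, _, _, hI⟩ := hyp {v0}
      rw [Finset.card_singleton] at hI
      rcases hρ.lt_or_eq with h | h
      · exact h
      · rw [← h] at hI
        norm_num at hI
    have hK : 0 < 4 * ρ * ((Nat.clog 2 G.maxDegree : ℝ) + 1) := by positivity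
    obtain ⟨y, h1, h2, h3, h4⟩ := exists_fractional (G := G) hK
      (fun w hw => exists_weighted hρ (d := G.maxDegree) (fun v => G.degree_le_maxDegree v) hyp w hw)
    exact ⟨y, h1, h2, h3, h4.le⟩

end Pool.Agent.Results.MP_8b22ef_co.FractionalLogBound
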